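import Pool.Agent.helper1.SOL.SpecN

/-!
# Comparison of the graphs of type B and D (row sol:BDN)
-/

set_option autoImplicit false

namespace Pool.Agent.SOL

open Pool.Agent.helper54.SOG Finset

open scoped BigOperators

/-- **BDN**: the even vertices of the graph of type B are the vertices of the graph of type D. -/
theorem BDN (hCNT : CNT_stmt) (hBTY : BTY_stmt) : BDN_stmt := by
  have key : ∀ (n k : ℕ) (x : Vec n), x ∈ VD n k ↔ x ∈ VB n k ∧ dp x x = 2 * k := by
    intro n k x
    constructor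
    · rintro ⟨h1, h2, h3⟩
      exact ⟨⟨h1, Or.inl h2, h3⟩, h2⟩
    · rintro ⟨⟨h1, -, h3⟩, h2⟩
      exact ⟨h1, h2, h3⟩
  refine ⟨fun n hn => ?_, key⟩
  ext x
  constructor
  · intro hx
    rw [hBTY.1] at hx
    rw [hCNT.2.1]
    refine ⟨hx.1, ?_, hx.2.2⟩
    rcases hx.2.1 with h | h
    · exact h
    · have := hx.2.2
      omega
  · intro hx
    exact ((key n n x).1 hx).1

end Pool.Agent.SOL
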