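import Pool.Agent.helper20.SOL.Spec

/-!
# Counts (row sol:CNT)
-/

set_option autoImplicit false

namespace Pool.Agent.SOL

open Finset

open scoped BigOperators

theorem CNT_sum {n : ℕ} (x : Vec n) (a : ℤ) : cnt x a = ∑ i, if |x i| = a then 1 else 0 := by
  unfold cnt
  rw [card_filter]

theorem CNT_congr {n : ℕ} {x y : Vec n} (h : ∀ i, |x i| = |y i|) (a : ℤ) : cnt x a = cnt y a := by
  rw [CNT_sum, CNT_sum]
  exact sum_congr rfl fun i _ => by rw [h i]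

theorem CNT_swp {n : ℕ} (x : Vec n) (a b : Fin n) (c : ℤ) : cnt (swp a b x) c = cnt x c := by
  rw [CNT_sum, CNT_sum]
  exact Equiv.sum_comp (Equiv.swap a b) fun i => if |x i| = c then 1 else 0

theorem CNT_flp {n : ℕ} (i : Fin n) (x : Vec n) (j : Fin n) : |flp i x j| = |x j| := by
  unfold flp
  split_ifs
  · exact abs_neg _
  · rfl

theorem CNT_cases {z : ℤ} (h : |z| ≤ 2) : |z| = 0 ∨ |z| = 1 ∨ |z| = 2 := by
  have := abs_nonneg z
  omega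

theorem CNT_tot {n : ℕ} (x : Vec n) (h : ∀ i, |x i| ≤ 2) : cnt x 0 + cnt x 1 + cnt x 2 = n := by
  rw [CNT_sum, CNT_sum, CNT_sum, ← sum_add_distrib, ← sum_add_distrib]
  have e : ∀ i ∈ (univ : Finset (Fin n)), ((if |x i| = 0 then 1 else 0) + (if |x i| = 1 then 1 else 0) +
      (if |x i| = 2 then 1 else 0) : ℕ) = 1 := by
    intro i _
    rcases CNT_cases (h i) with h1 | h1 | h1 <;> rw [h1] <;> rfl
  rw [sum_congr rfl e, sum_const, card_univ, Fintype.card_fin, smul_eq_mul, mul_one]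

theorem CNT_dp {n : ℕ} (x : Vec n) (h : ∀ i, |x i| ≤ 2) :
    dp x x = 4 * (cnt x 2 : ℤ) + (cnt x 1 : ℤ) := by
  unfold dp
  rw [CNT_sum, CNT_sum]
  push_cast
  rw [mul_sum, ← sum_add_distrib]
  refine sum_congr rfl fun i _ => ?_
  have e : x i * x i = |x i| * |x i| := (abs_mul_abs_self _).symm
  rw [e]
  rcases CNT_cases (h i) with h1 | h1 | h1 <;> rw [h1] <;> rfl

theorem CNT_l1 {n : ℕ} (x : Vec n) (h : ∀ i, |x i| ≤ 2) :
    l1 x = 2 * (cnt x 2 : ℤ) + (cnt x 1 : ℤ) := by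
  unfold l1
  rw [CNT_sum, CNT_sum]
  push_cast
  rw [mul_sum, ← sum_add_distrib]
  refine sum_congr rfl fun i _ => ?_
  rcases CNT_cases (h i) with h1 | h1 | h1 <;> rw [h1] <;> rfl

theorem CNT_VD (n k : ℕ) (x : Vec n) : x ∈ VD n k ↔
    (∀ i, |x i| ≤ 2) ∧ 4 * cnt x 2 + cnt x 1 = 2 * k ∧ 2 * cnt x 2 + cnt x 1 ≤ n := by
  constructor
  · rintro ⟨h1, h2, h3⟩
    rw [CNT_dp x h1] at h2
    rw [CNT_l1 x h1] at h3
    refine ⟨h1, ?_, ?_⟩
    · omega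
    · omega
  · rintro ⟨h1, h2, h3⟩
    refine ⟨h1, ?_, ?_⟩
    · rw [CNT_dp x h1]
      omega
    · rw [CNT_l1 x h1]
      omega

/-- **CNT**: counts. -/
theorem CNT : CNT_stmt := by
  refine ⟨fun n x h => CNT_tot x h, CNT_VD, ?_, ?_, ?_, ?_, ?_, ?_⟩
  · rintro n k t s x h1 h2 ⟨h3, h4, h5⟩
    rw [CNT_VD, h4, h5]
    exact ⟨h3, h1, h2⟩
  · rintro n t s x i ⟨h3, h4, h5⟩
    refine ⟨fun j => ?_, ?_, ?_⟩
    · rw [CNT_flp]; exact h3 j
    · rw [CNT_congr (CNT_flp i x)]; exact h4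
    · rw [CNT_congr (CNT_flp i x)]; exact h5
  · rintro n t s x a b ⟨h3, h4, h5⟩
    refine ⟨fun j => h3 _, ?_, ?_⟩
    · rw [CNT_swp]; exact h4
    · rw [CNT_swp]; exact h5
  · rintro n t s x ⟨h3, h4, h5⟩
    have e : ∀ i, |(-x) i| = |x i| := fun i => abs_neg _
    refine ⟨fun j => ?_, ?_, ?_⟩
    · rw [e]; exact h3 j
    · rw [CNT_congr e]; exact h4
    · rw [CNT_congr e]; exact h5
  · intro n k x i hx
    rw [CNT_VD] at hx ⊢
    rw [CNT_congr (CNT_flp i x), CNT_congr (CNT_flp i x)]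
    exact ⟨fun j => by rw [CNT_flp]; exact hx.1 j, hx.2⟩
  · intro n k x a b hx
    rw [CNT_VD] at hx ⊢
    rw [CNT_swp, CNT_swp]
    exact ⟨fun j => hx.1 _, hx.2⟩

end Pool.Agent.SOL
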