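import Pool.Agent.helper1.SOL.SpecN
import Pool.Agent.helper16.SOL.CNT

/-!
# Types of the vertices of the graphs of type B and C (row sol:BTY)
-/

set_option autoImplicit false

namespace Pool.Agent.SOL

open Pool.Agent.helper54.SOG Finset

open scoped BigOperators

theorem BTY_VB (n k : ℕ) (x : Vec n) : x ∈ VB n k ↔ (∀ i, |x i| ≤ 2) ∧
    (4 * cnt x 2 + cnt x 1 = 2 * k ∨ 4 * cnt x 2 + cnt x 1 + 1 = 2 * k) ∧
    2 * cnt x 2 + cnt x 1 ≤ n := by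
  constructor
  · rintro ⟨h1, h2, h3⟩
    rw [CNT_dp x h1] at h2
    rw [CNT_l1 x h1] at h3
    refine ⟨h1, ?_, ?_⟩
    · omega
    · omega
  · rintro ⟨h1, h2, h3⟩
    refine ⟨h1, ?_, ?_⟩
    · rw [CNT_dp x h1]
      omega
    · rw [CNT_l1 x h1]
      omega

theorem BTY_VC (n k : ℕ) (x : Vec n) : x ∈ VC n k ↔
    (∀ i, |x i| ≤ 2) ∧ 2 * cnt x 2 + cnt x 1 = 2 * k := by
  constructor
  · rintro ⟨h1, h2⟩
    rw [CNT_l1 x h1] at h2
    refine ⟨h1, ?_⟩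
    omega
  · rintro ⟨h1, h2⟩
    refine ⟨h1, ?_⟩
    rw [CNT_l1 x h1]
    omega

theorem BTY_fin (n : ℕ) : {x : Vec n | ∀ i, |x i| ≤ 2}.Finite := by
  have h : {f : Fin n → ℤ | ∀ i, f i ∈ Set.Icc (-2 : ℤ) 2}.Finite :=
    Set.Finite.pi' fun _ => Set.finite_Icc _ _
  refine h.subset fun x hx => ?_
  intro i
  exact abs_le.1 (hx i)

/-- **BTY**: types of the vertices. -/
theorem BTY (hCNT : CNT_stmt) : BTY_stmt := by
  have _ := hCNT
  have e : ∀ (n : ℕ) (x : Vec n) (i : Fin n), |(-x) i| = |x i| := fun n x i => abs_neg _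
  refine ⟨BTY_VB, BTY_VC, fun n x h => CNT_dp x h, fun n x h => CNT_l1 x h, ?_, ?_, ?_, ?_⟩
  · intro n k x hx
    refine ⟨fun i => ?_, fun a b => ?_⟩
    · rw [BTY_VB] at hx ⊢
      rw [CNT_congr (CNT_flp i x), CNT_congr (CNT_flp i x)]
      exact ⟨fun j => by rw [CNT_flp]; exact hx.1 j, hx.2⟩
    · rw [BTY_VB] at hx ⊢
      rw [CNT_swp, CNT_swp]
      exact ⟨fun j => hx.1 _, hx.2⟩
  · intro n k x hx
    refine ⟨fun i => ?_, fun a b => ?_⟩
    · rw [BTY_VC] at hx ⊢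
      rw [CNT_congr (CNT_flp i x), CNT_congr (CNT_flp i x)]
      exact ⟨fun j => by rw [CNT_flp]; exact hx.1 j, hx.2⟩
    · rw [BTY_VC] at hx ⊢
      rw [CNT_swp, CNT_swp]
      exact ⟨fun j => hx.1 _, hx.2⟩
  · intro n k hk
    refine ⟨⟨fun x hx => ?_, fun h0 => ?_⟩, ⟨fun x hx => ?_, fun h0 => ?_⟩⟩
    · rw [BTY_VB] at hx ⊢
      rw [CNT_congr (e n x), CNT_congr (e n x)]
      exact ⟨fun j => by rw [e]; exact hx.1 j, hx.2⟩
    · obtain ⟨-, h2, -⟩ := h0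
      have h3 : dp (0 : Vec n) 0 = 0 := by simp [dp]
      rw [h3] at h2
      omega
    · rw [BTY_VC] at hx ⊢
      rw [CNT_congr (e n x), CNT_congr (e n x)]
      exact ⟨fun j => by rw [e]; exact hx.1 j, hx.2⟩
    · obtain ⟨-, h2⟩ := h0
      have h3 : l1 (0 : Vec n) = 0 := by simp [l1]
      rw [h3] at h2
      omega
  · intro n k
    exact ⟨(BTY_fin n).subset fun x hx => hx.1, (BTY_fin n).subset fun x hx => hx.1⟩

end Pool.Agent.SOL
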