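import Pool.Agent.helper1.SOL.SpecN
import Mathlib.Algebra.Polynomial.Basic
import Mathlib.Algebra.Polynomial.Eval.Coeff

/-!
# The number of vectors of type TD n t s (row sol:CRD)
-/

set_option autoImplicit false

namespace Pool.Agent.SOL

open Pool.Agent.helper54.SOG Finset

open scoped BigOperators

/-- the vectors with entries of absolute value at most 2 -/
noncomputable def CRD_V (n : ℕ) : Finset (Vec n) := Fintype.piFinset fun _ : Fin n => Finset.Icc (-2 : ℤ) 2

/-- the weight of a coordinate -/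
noncomputable def CRD_f (a : ℤ) : Polynomial (Polynomial ℕ) :=
  Polynomial.X ^ (if |a| = 2 then 1 else 0) * (Polynomial.C Polynomial.X) ^ (if |a| = 1 then 1 else 0)

theorem CRD_sumf : ∑ a ∈ Finset.Icc (-2 : ℤ) 2, CRD_f a =
    Polynomial.C (1 + 2 * Polynomial.X) + Polynomial.C 2 * Polynomial.X := by
  have e : Finset.Icc (-2 : ℤ) 2 = {-2, -1, 0, 1, 2} := by decide
  rw [e]
  have h1 : CRD_f (-2) = Polynomial.X := by simp [CRD_f]
  have h2 : CRD_f (-1) = Polynomial.C Polynomial.X := by simp [CRD_f]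
  have h3 : CRD_f 0 = 1 := by simp [CRD_f]
  have h4 : CRD_f 1 = Polynomial.C Polynomial.X := by simp [CRD_f]
  have h5 : CRD_f 2 = Polynomial.X := by simp [CRD_f]
  rw [Finset.sum_insert (by decide), Finset.sum_insert (by decide), Finset.sum_insert (by decide),
    Finset.sum_insert (by decide), Finset.sum_singleton, h1, h2, h3, h4, h5]
  simp only [map_add, map_mul, map_one, map_ofNat]
  ring

theorem CRD_prod {n : ℕ} (x : Vec n) : ∏ i, CRD_f (x i) =
    Polynomial.X ^ cnt x 2 * (Polynomial.C Polynomial.X) ^ cnt x 1 := by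
  unfold CRD_f cnt
  rw [Finset.prod_mul_distrib, Finset.prod_pow_eq_pow_sum, Finset.prod_pow_eq_pow_sum,
    Finset.card_filter, Finset.card_filter]

theorem CRD_coeff (n t s : ℕ) :
    (((Polynomial.C (1 + 2 * Polynomial.X) + Polynomial.C 2 * Polynomial.X :
      Polynomial (Polynomial ℕ)) ^ n).coeff t).coeff s =
      n.choose t * (n - t).choose s * 2 ^ (t + s) := by
  have h1 : (Polynomial.C (1 + 2 * Polynomial.X) + Polynomial.C 2 * Polynomial.X :
      Polynomial (Polynomial ℕ)) ^ n =
      ((Polynomial.X + Polynomial.C (1 + 2 * Polynomial.X)) ^ n).comp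
        (Polynomial.C 2 * Polynomial.X) := by
    rw [Polynomial.pow_comp, Polynomial.add_comp, Polynomial.X_comp, Polynomial.C_comp, add_comm]
  have h2 : (1 + 2 * Polynomial.X : Polynomial ℕ) ^ (n - t) =
      ((Polynomial.X + Polynomial.C 1) ^ (n - t)).comp (Polynomial.C 2 * Polynomial.X) := by
    rw [Polynomial.pow_comp, Polynomial.add_comp, Polynomial.X_comp, Polynomial.C_comp, add_comm]
    simp
  rw [h1, Polynomial.comp_C_mul_X_coeff, Polynomial.coeff_X_add_C_pow, h2]
  have h3 : ((((Polynomial.X + Polynomial.C 1) ^ (n - t)).comp (Polynomial.C 2 * Polynomial.X)) *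
      ((n.choose t : ℕ) : Polynomial ℕ) * 2 ^ t) =
      Polynomial.C (n.choose t * 2 ^ t) *
        (((Polynomial.X + Polynomial.C 1) ^ (n - t)).comp (Polynomial.C 2 * Polynomial.X)) := by
    have h4 : Polynomial.C (n.choose t) = ((n.choose t : ℕ) : Polynomial ℕ) := by
      simp
    have h5 : Polynomial.C ((2 : ℕ) ^ t) = (2 : Polynomial ℕ) ^ t := by
      simp
    rw [map_mul, h4, h5]
    ring
  rw [h3, Polynomial.coeff_C_mul, Polynomial.comp_C_mul_X_coeff, Polynomial.coeff_X_add_C_pow]
  simp only [one_pow, one_mul, Nat.cast_id]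
  ring

theorem CRD_card (n t s : ℕ) : ((CRD_V n).filter fun x => cnt x 2 = t ∧ cnt x 1 = s).card =
    n.choose t * (n - t).choose s * 2 ^ (t + s) := by
  have h1 := Finset.prod_univ_sum (fun _ : Fin n => Finset.Icc (-2 : ℤ) 2) (fun _ a => CRD_f a)
  rw [CRD_sumf, Finset.prod_const, Finset.card_univ, Fintype.card_fin] at h1
  rw [← CRD_coeff n t s, h1, Polynomial.finset_sum_coeff, Polynomial.finset_sum_coeff, Finset.card_filter]
  refine Finset.sum_congr rfl fun x _ => ?_
  rw [CRD_prod, ← Polynomial.C_pow, Polynomial.coeff_mul_C, Polynomial.coeff_X_pow]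
  by_cases h3 : cnt x 2 = t
  · rw [if_pos h3.symm, one_mul, Polynomial.coeff_X_pow]
    by_cases h4 : cnt x 1 = s
    · rw [if_pos h4.symm, if_pos ⟨h3, h4⟩]
    · rw [if_neg fun h => h4 h.2, if_neg fun h => h4 h.symm]
  · rw [if_neg fun h => h3 h.1, if_neg fun h => h3 h.symm, zero_mul, Polynomial.coeff_zero]

theorem CRD_TD (n t s : ℕ) :
    TD n t s = (((CRD_V n).filter fun x => cnt x 2 = t ∧ cnt x 1 = s : Finset (Vec n)) :
      Set (Vec n)) := by
  ext x
  unfold TD CRD_V
  simp only [Set.mem_ofPred_eq, Finset.coe_filter, Fintype.mem_piFinset, Finset.mem_Icc, abs_le]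

/-- **CRD**: the number of vectors of type TD n t s. -/
theorem CRD : CRD_stmt := by
  refine ⟨fun n t s => ?_, fun n t s _ => ?_, fun n t s h => ?_⟩
  · rw [CRD_TD]
    exact Finset.finite_toSet _
  · rw [CRD_TD, Set.ncard_coe_finset, CRD_card]
  · rw [CRD_TD, Finset.coe_eq_empty, ← Finset.card_eq_zero, CRD_card]
    rcases lt_or_ge n t with h1 | h1
    · rw [Nat.choose_eq_zero_of_lt h1, zero_mul, zero_mul]
    · rw [Nat.choose_eq_zero_of_lt (show n - t < s by omega), mul_zero, zero_mul]

end Pool.Agent.SOL
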