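import Pool.Agent.helper1.SOL.SpecN

/-!
# Edges of the graphs of type B (row sol:SHB)
-/

set_option autoImplicit false

namespace Pool.Agent.SOL

open Pool.Agent.helper54.SOG Finset

open scoped BigOperators

theorem SHB_neg {n k : ℕ} {x : Vec n} (h : x ∈ VB n k) : -x ∈ VB n k := by
  obtain ⟨h1, h2, h3⟩ := h
  have e : ∀ i, |(-x) i| = |x i| := fun i => abs_neg _
  refine ⟨fun i => by rw [e]; exact h1 i, ?_, ?_⟩
  · rw [dp_neg_left, dp_neg_right, neg_neg]
    exact h2
  · have : l1 (-x) = l1 x := Finset.sum_congr rfl fun i _ => e i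
    rw [this]
    exact h3

/-- the dot product of an edge, with the parities -/
theorem SHB_dp {n k : ℕ} {x y : Vec n} (hx : x ∈ VB n k) (hy : y ∈ VB n k)
    (hxy : x - y ∈ VB n k) :
    (dp x x = 2 * k ∧ dp y y = 2 * k ∧ dp (x - y) (x - y) = 2 * k ∧ dp x y = k) ∨
    (dp x x = 2 * k ∧ dp y y = 2 * k - 1 ∧ dp (x - y) (x - y) = 2 * k - 1 ∧ dp x y = k) ∨
    (dp x x = 2 * k - 1 ∧ dp y y = 2 * k ∧ dp (x - y) (x - y) = 2 * k - 1 ∧ dp x y = k) ∨
    (dp x x = 2 * k - 1 ∧ dp y y = 2 * k - 1 ∧ dp (x - y) (x - y) = 2 * k ∧ dp x y = k - 1) := by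
  have h := dp_sub_sub x y
  obtain ⟨-, h1, -⟩ := hx
  obtain ⟨-, h2, -⟩ := hy
  obtain ⟨-, h3, -⟩ := hxy
  omega

/-- **SHB**: edges of the graph of type B. -/
theorem SHB : SHB_stmt := by
  intro n k x y hk hx hy hxy
  have hd := SHB_dp hx hy hxy
  refine ⟨by omega, by omega, by omega, ?_⟩
  intro hp
  have hyx : y - x ∈ VB n k := by
    have := SHB_neg hxy
    rwa [neg_sub] at this
  refine ⟨hyx, ?_, ?_, ?_, ?_⟩
  · rw [sub_sub_cancel]
    exact hx
  · intro h
    have h1 : dp x (y - x) = dp x x := by rw [h]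
    rw [dp_sub_right] at h1
    omega
  · intro h
    obtain ⟨-, h1, -⟩ := h
    rw [dp_sub_sub, dp_sub_right, dp_sub_sub, dp_comm y x] at h1
    omega
  · intro v hv hxv hzv
    have hv1 := SHB_dp hx hv hxv
    have hv2 := SHB_dp hyx hv hzv
    have e1 : dp (y - x) (y - x) = dp (x - y) (x - y) := by
      rw [dp_sub_sub, dp_sub_sub, dp_comm y x]
      ring
    have e2 : dp (y - x) v = dp y v - dp x v := dp_sub_left _ _ _
    have e3 := dp_sub_sub y v
    have e4 := dp_self_nonneg (y - v)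
    have e5 : dp (y - v) (y - v) = 0 := by omega
    have := eq_zero_of_dp e5
    exact (sub_eq_zero.1 this).symm

end Pool.Agent.SOL
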