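import Pool.Agent.helper1.SOL.SpecN

/-!
# Sharp edges in sets with SLs (row sol:SLE)
-/

set_option autoImplicit false

namespace Pool.Agent.SOL

open Pool.Agent.helper54.SOG Finset

open scoped BigOperators

/-- **SLE**: all edges are sharp. -/
theorem SLE : SLE_stmt := by
  intro n S hS
  have key : ∀ x ∈ S, ∀ y ∈ S, x - y ∈ S → y - x ∈ SS S x y := by
    intro x hx y hy hxy
    refine ⟨hS.sub_comm hxy, ?_, ?_, ?_, ?_⟩
    · rw [sub_sub_cancel]
      exact hx
    · intro h
      have h2 : y = x + x := sub_eq_iff_eq_add.1 h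
      exact hS.two x hx (h2 ▸ hy)
    · intro h
      have h1 : x - (x - y) ∈ S := by
        rw [sub_sub_cancel]
        exact hy
      refine hS.nc x hx (x - y) hxy h1 ?_
      have : x + (x - y) = x - (y - x) := by abel
      rw [this]
      exact h
    · intro v hv hxv hzv
      exact hS.uc y hy x hx (hS.sub_comm hxy) v hv hxv hzv
  have hEE : ∀ x y, ¬ EE S x y := by
    rintro x y ⟨hx, hy, hxy, h⟩
    have := key x hx y hy hxy
    rw [h] at this
    exact this
  refine ⟨⟨hS.neg, hS.zero⟩, key, hEE, ?_⟩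
  ext x
  exact ⟨fun h => h.1, fun h => ⟨h, fun y => hEE x y⟩⟩

end Pool.Agent.SOL
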