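import Pool.Agent.helper20.SOL.Spec

/-!
# Linearity on `TD n (2r+1) 2` (row sol:DL3)
-/

set_option autoImplicit false

namespace Pool.Agent.SOL

open Finset

open scoped BigOperators

theorem DL3_fit2 (f : ℤ → ℤ → ℕ) (A B a b : ℤ) (h : ¬ (A = B ∧ a = b)) (h1 : 1 ≤ f A a)
    (h2 : 1 ≤ f B b) (p q : ℤ) :
    (if A = p ∧ a = q then 1 else 0) + (if B = p ∧ b = q then 1 else 0) ≤ f p q := by
  by_cases e1 : A = p ∧ a = q
  · rw [if_pos e1]
    obtain ⟨rfl, rfl⟩ := e1
    rw [if_neg fun e2 => h ⟨e2.1.symm, e2.2.symm⟩]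
    exact h1
  · rw [if_neg e1]
    by_cases e2 : B = p ∧ b = q
    · rw [if_pos e2]
      obtain ⟨rfl, rfl⟩ := e2
      rw [zero_add]
      exact h2
    · rw [if_neg e2]
      exact Nat.zero_le _

theorem DL3_fit3 (f : ℤ → ℤ → ℕ) (A B C a b c : ℤ) (h : ¬ (A = B ∧ a = b))
    (h' : ¬ (A = C ∧ a = c)) (h'' : ¬ (B = C ∧ b = c)) (h1 : 1 ≤ f A a)
    (h2 : 1 ≤ f B b) (h3 : 1 ≤ f C c) (p q : ℤ) :
    (if A = p ∧ a = q then 1 else 0) + (if B = p ∧ b = q then 1 else 0) +
      (if C = p ∧ c = q then 1 else 0) ≤ f p q := by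
  by_cases e3 : C = p ∧ c = q
  · obtain ⟨rfl, rfl⟩ := e3
    rw [if_neg h', if_neg h'', if_pos ⟨rfl, rfl⟩]
    exact h3
  · rw [if_neg e3, add_zero]
    exact DL3_fit2 f A B a b h h1 h2 p q

theorem DL3_sg {z p : ℤ} (h : |z| = p) : sg z * p = z := by
  unfold sg
  split_ifs with h1
  · rw [abs_of_neg h1] at h
    rw [← h]; ring
  · rw [abs_of_nonneg (not_lt.1 h1)] at h
    rw [h, one_mul]

theorem DL3_sg_abs (z v : ℤ) : |sg z * v| = |v| := by
  unfold sg
  split_ifs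
  · rw [neg_one_mul, abs_neg]
  · rw [one_mul]

/-- the pattern lemma for three coordinates -/
theorem DL3_three (hCNT : CNT_stmt) (hPAT : PAT_stmt) {n t s : ℕ} {x : Vec n}
    (hx : x ∈ TD n t s) (c22 c20 c21 c11 c10 c12 c1m c02 c01 c00 : ℕ)
    (e1 : c22 + c20 + c21 = t) (e2 : c11 + c10 + c12 + c1m = s)
    (e3 : c02 + c01 + c00 + s + t = n) (e4 : c22 + c12 + c02 = t) (e5 : c11 + c1m + c21 + c01 = s)
    (e6 : c20 + c1m + c02 = t) (e7 : c21 + c12 + c10 + c01 = s)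
    {i a b : Fin n} (hia : i ≠ a) (hib : i ≠ b) (hab : a ≠ b) (vi va vb : ℤ)
    (h : ¬ (|x i| = |x a| ∧ vi = va)) (h' : ¬ (|x i| = |x b| ∧ vi = vb))
    (h'' : ¬ (|x a| = |x b| ∧ va = vb))
    (h1 : 1 ≤ pat c22 c20 c21 c11 c10 c12 c1m c02 c01 c00 |x i| vi)
    (h2 : 1 ≤ pat c22 c20 c21 c11 c10 c12 c1m c02 c01 c00 |x a| va)
    (h3 : 1 ≤ pat c22 c20 c21 c11 c10 c12 c1m c02 c01 c00 |x b| vb) :
    ∃ y ∈ TD n t s, x - y ∈ TD n t s ∧ y i = sg (x i) * vi ∧ y a = sg (x a) * va ∧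
      y b = sg (x b) * vb := by
  obtain ⟨hx1, hx2, hx3⟩ := hx
  have hx0 := hCNT.1 n x hx1
  obtain ⟨y, g1, g2, g3, g4, g5⟩ := hPAT.1 n x c22 c20 c21 c11 c10 c12 c1m c02 c01 c00 hx1
    (by omega) (by omega) (by omega) i a b vi va vb hia hib hab
    (DL3_fit3 _ _ _ _ _ _ _ h h' h'' h1 h2 h3)
  rw [e4, e5] at g1
  rw [e6, e7] at g2
  exact ⟨y, g1, g2, g3, g4, g5⟩

/-- the pattern lemma for two coordinates -/
theorem DL3_two (hCNT : CNT_stmt) (hPAT : PAT_stmt) {n t s : ℕ} {x : Vec n}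
    (hx : x ∈ TD n t s) (c22 c20 c21 c11 c10 c12 c1m c02 c01 c00 : ℕ)
    (e1 : c22 + c20 + c21 = t) (e2 : c11 + c10 + c12 + c1m = s)
    (e3 : c02 + c01 + c00 + s + t = n) (e4 : c22 + c12 + c02 = t) (e5 : c11 + c1m + c21 + c01 = s)
    (e6 : c20 + c1m + c02 = t) (e7 : c21 + c12 + c10 + c01 = s)
    {i a : Fin n} (hia : i ≠ a) (vi va : ℤ)
    (h : ¬ (|x i| = |x a| ∧ vi = va))
    (h1 : 1 ≤ pat c22 c20 c21 c11 c10 c12 c1m c02 c01 c00 |x i| vi)
    (h2 : 1 ≤ pat c22 c20 c21 c11 c10 c12 c1m c02 c01 c00 |x a| va) :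
    ∃ y ∈ TD n t s, x - y ∈ TD n t s ∧ y i = sg (x i) * vi ∧ y a = sg (x a) * va := by
  obtain ⟨hx1, hx2, hx3⟩ := hx
  have hx0 := hCNT.1 n x hx1
  obtain ⟨y, g1, g2, g3, g4⟩ := hPAT.2.1 n x c22 c20 c21 c11 c10 c12 c1m c02 c01 c00 hx1
    (by omega) (by omega) (by omega) i a vi va hia (DL3_fit2 _ _ _ _ _ h h1 h2)
  rw [e4, e5] at g1
  rw [e6, e7] at g2
  exact ⟨y, g1, g2, g3, g4⟩

/-- elements with a given absolute value -/
theorem DL3_ex {n : ℕ} {x : Vec n} {c : ℤ} (h : 0 < cnt x c) : ∃ j, |x j| = c := by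
  obtain ⟨j, hj⟩ := card_pos.1 h
  exact ⟨j, (mem_filter.1 hj).2⟩

theorem DL3_one_lt {n : ℕ} {x : Vec n} {c : ℤ} {i j : Fin n} (hij : i ≠ j) (hi : |x i| = c)
    (hj : |x j| = c) : 1 < cnt x c :=
  one_lt_card.2 ⟨i, mem_filter.2 ⟨mem_univ _, hi⟩, j, mem_filter.2 ⟨mem_univ _, hj⟩, hij⟩

theorem DL3_cases {z : ℤ} (h : |z| ≤ 2) : |z| = 0 ∨ |z| = 1 ∨ |z| = 2 := by
  have := abs_nonneg z
  omega

theorem DL3_ne {z : ℤ} (h : z ≠ 0) (h2 : |z| ≤ 2) : |z| = 1 ∨ |z| = 2 := by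
  rcases DL3_cases h2 with h3 | h3
  · exact absurd (abs_eq_zero.1 h3) h
  · exact h3

/-- the function `v` -/
def DL3_v (r : ℕ) (z : ℤ) : ℤ := if z = 2 then 1 else if r = 0 then 0 else 2

/-- **DL3**. -/
theorem DL3 (hCNT : CNT_stmt) (hPAT : PAT_stmt) (hLX5 : LX5_stmt) : DL3_stmt := by
  intro n r hn hn5 M _ _ f hf
  refine hLX5 n (2 * r + 1) 2 M f (DL3_v r) hf ?_ ?_ ?_ ?_
  · -- h1
    intro x hx i j hij hi hj
    have hx1 := hx.1
    have key : ∀ i j : Fin n, i ≠ j → |x i| = 2 → |x j| = 1 → ∃ y ∈ TD n (2 * r + 1) 2,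
        x - y ∈ TD n (2 * r + 1) 2 ∧ y i = 0 ∧ (x - y) j = 0 := by
      intro i j hij ai aj
      obtain ⟨y, g1, g2, g3, g4⟩ := DL3_two hCNT hPAT hx r (r + 1) 0 1 0 1 0 r 1 (n - 3 * r - 4)
        (by omega) (by omega) (by omega) (by omega) (by omega) (by omega) (by omega) hij 0 1
        (by rw [ai, aj]; norm_num) (by rw [ai]; simp [pat]) (by rw [aj]; simp [pat])
      refine ⟨y, g1, g2, by rw [g3, mul_zero], ?_⟩
      show x j - y j = 0
      rw [g4, DL3_sg aj, sub_self]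
    rcases DL3_ne hi (hx1 i) with ai | ai <;> rcases DL3_ne hj (hx1 j) with aj | aj
    · obtain ⟨y, g1, g2, g3, g4⟩ := DL3_two hCNT hPAT hx r r 1 1 1 0 0 (r + 1) 0 (n - 3 * r - 4)
        (by omega) (by omega) (by omega) (by omega) (by omega) (by omega) (by omega) hij 0 1
        (by norm_num) (by rw [ai]; simp [pat]) (by rw [aj]; simp [pat])
      refine ⟨y, g1, g2, Or.inl ⟨by rw [g3, mul_zero], ?_⟩⟩
      show x j - y j = 0
      rw [g4, DL3_sg aj, sub_self]
    · obtain ⟨y, g1, g2, g3, g4⟩ := key j i hij.symm aj ai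
      exact ⟨y, g1, g2, Or.inr ⟨g3, g4⟩⟩
    · obtain ⟨y, g1, g2, g3, g4⟩ := key i j hij ai aj
      exact ⟨y, g1, g2, Or.inl ⟨g3, g4⟩⟩
    · have hr : 1 ≤ r := by
        have h2 := DL3_one_lt hij ai aj
        have h3 := hx.2.1
        omega
      obtain ⟨y, g1, g2, g3, g4⟩ := DL3_two hCNT hPAT hx r r 1 1 1 0 0 (r + 1) 0 (n - 3 * r - 4)
        (by omega) (by omega) (by omega) (by omega) (by omega) (by omega) (by omega) hij 0 2
        (by norm_num) (by rw [ai]; simp [pat]; omega) (by rw [aj]; simp [pat]; omega)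
      refine ⟨y, g1, g2, Or.inl ⟨by rw [g3, mul_zero], ?_⟩⟩
      show x j - y j = 0
      rw [g4, DL3_sg aj, sub_self]
  · -- h2
    intro x hx i a b hi hai hbi ha hb
    have hx1 := hx.1
    have hab : a ≠ b := by
      rintro rfl
      exact hb ha
    -- from a suitable vector
    have fin : ∀ (vi va vb : ℤ), |x i| = vi → |va| = |vb| →
        (∃ y ∈ TD n (2 * r + 1) 2, x - y ∈ TD n (2 * r + 1) 2 ∧ y i = sg (x i) * vi ∧
          y a = sg (x a) * va ∧ y b = sg (x b) * vb) →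
        ∃ y ∈ TD n (2 * r + 1) 2, x - y ∈ TD n (2 * r + 1) 2 ∧ (x - y) i = 0 ∧ |y a| = |y b| := by
      rintro vi va vb h1 h2 ⟨y, g1, g2, g3, g4, g5⟩
      refine ⟨y, g1, g2, ?_, ?_⟩
      · show x i - y i = 0
        rw [g3, DL3_sg h1, sub_self]
      · rw [g4, g5, DL3_sg_abs, DL3_sg_abs, h2]
    rcases DL3_ne hi (hx1 i) with ai | ai
    · -- `x i` is `±1`
      by_cases hr : r = 0
      · have ev : DL3_v r |x i| = 0 := by
          rw [ai]; unfold DL3_v; rw [if_neg (by norm_num), if_pos hr]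
        rw [ev] at ha hb
        rcases DL3_ne (fun e => hb (by rw [e]; rfl)) (hx1 b) with ab | ab
        · exact fin 1 0 0 ai rfl (DL3_three hCNT hPAT hx r r 1 1 1 0 0 (r + 1) 0 (n - 3 * r - 4)
            (by omega) (by omega) (by omega) (by omega) (by omega) (by omega) (by omega)
            hai.symm hbi.symm hab 1 0 0 (by norm_num) (by norm_num) (by rw [ha, ab]; norm_num)
            (by rw [ai]; simp [pat]) (by rw [ha]; simp [pat]; omega) (by rw [ab]; simp [pat]))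
        · exact fin 1 0 0 ai rfl (DL3_three hCNT hPAT hx r (r + 1) 0 1 0 1 0 r 1 (n - 3 * r - 4)
            (by omega) (by omega) (by omega) (by omega) (by omega) (by omega) (by omega)
            hai.symm hbi.symm hab 1 0 0 (by norm_num) (by norm_num) (by rw [ha, ab]; norm_num)
            (by rw [ai]; simp [pat]) (by rw [ha]; simp [pat]; omega) (by rw [ab]; simp [pat]))
      · have ev : DL3_v r |x i| = 2 := by
          rw [ai]; unfold DL3_v; rw [if_neg (by norm_num), if_neg hr]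
        rw [ev] at ha hb
        rcases DL3_cases (hx1 b) with ab | ab | ab
        · exact fin 1 2 2 ai rfl (DL3_three hCNT hPAT hx r r 1 1 1 0 0 (r + 1) 0 (n - 3 * r - 4)
            (by omega) (by omega) (by omega) (by omega) (by omega) (by omega) (by omega)
            hai.symm hbi.symm hab 1 2 2 (by norm_num) (by norm_num) (by rw [ha, ab]; norm_num)
            (by rw [ai]; simp [pat]) (by rw [ha]; simp [pat]; omega) (by rw [ab]; simp [pat]))
        · exact fin 1 0 0 ai rfl (DL3_three hCNT hPAT hx r r 1 1 1 0 0 (r + 1) 0 (n - 3 * r - 4)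
            (by omega) (by omega) (by omega) (by omega) (by omega) (by omega) (by omega)
            hai.symm hbi.symm hab 1 0 0 (by norm_num) (by norm_num) (by rw [ha, ab]; norm_num)
            (by rw [ai]; simp [pat]) (by rw [ha]; simp [pat]; omega) (by rw [ab]; simp [pat]))
        · exact absurd ab hb
    · -- `x i` is `±2`
      have ev : DL3_v r |x i| = 1 := by
        rw [ai]; unfold DL3_v; rw [if_pos rfl]
      rw [ev] at ha hb
      rcases DL3_cases (hx1 b) with ab | ab | ab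
      · exact fin 2 (-1) 1 ai rfl (DL3_three hCNT hPAT hx (r + 1) r 0 0 1 0 1 r 1 (n - 3 * r - 4)
          (by omega) (by omega) (by omega) (by omega) (by omega) (by omega) (by omega)
          hai.symm hbi.symm hab 2 (-1) 1 (by norm_num) (by norm_num) (by norm_num)
          (by rw [ai]; simp [pat]) (by rw [ha]; simp [pat]) (by rw [ab]; simp [pat]))
      · exact absurd ab hb
      · have hr : 1 ≤ r := by
          have h2 := DL3_one_lt hbi ab ai
          have h3 := hx.2.1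
          omega
        exact fin 2 0 0 ai rfl (DL3_three hCNT hPAT hx (r + 1) r 0 0 1 0 1 r 1 (n - 3 * r - 4)
          (by omega) (by omega) (by omega) (by omega) (by omega) (by omega) (by omega)
          hai.symm hbi.symm hab 2 0 0 (by norm_num) (by norm_num) (by rw [ha, ab]; norm_num)
          (by rw [ai]; simp [pat]) (by rw [ha]; simp [pat]) (by rw [ab]; simp [pat]; omega))
  · -- h2'
    intro x hx i a b hi hai hbi ha hb hab
    have hx0 := hCNT.1 n x hx.1
    have hx2 := hx.2.1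
    have hx3 := hx.2.2
    rcases DL3_ne hi (hx.1 i) with ai | ai
    · by_cases hr : r = 0
      · have ev : DL3_v r |x i| = 0 := by
          rw [ai]; unfold DL3_v; rw [if_neg (by norm_num), if_pos hr]
        rw [ev]
        obtain ⟨c, hc⟩ := DL3_ex (x := x) (c := 0) (by omega)
        refine ⟨c, ?_, hc⟩
        rintro rfl
        rw [ai] at hc
        norm_num at hc
      · have ev : DL3_v r |x i| = 2 := by
          rw [ai]; unfold DL3_v; rw [if_neg (by norm_num), if_neg hr]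
        rw [ev]
        obtain ⟨c, hc⟩ := DL3_ex (x := x) (c := 2) (by omega)
        refine ⟨c, ?_, hc⟩
        rintro rfl
        rw [ai] at hc
        norm_num at hc
    · have ev : DL3_v r |x i| = 1 := by
        rw [ai]; unfold DL3_v; rw [if_pos rfl]
      rw [ev]
      obtain ⟨c, hc⟩ := DL3_ex (x := x) (c := 1) (by omega)
      refine ⟨c, ?_, hc⟩
      rintro rfl
      rw [ai] at hc
      norm_num at hc
  · -- h3
    rintro i ⟨x, hx, hxi⟩ _
    have hx0 := hCNT.1 n x hx.1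
    have hx2 := hx.2.1
    have hx3 := hx.2.2
    obtain ⟨y, g1, g2, g3⟩ := hPAT.2.2 n x r r 1 1 1 0 0 (r + 1) 0 (n - 3 * r - 4) hx.1
      (by omega) (by omega) (by omega) i 1 (by
        intro p q
        by_cases e : |x i| = p ∧ 1 = q
        · rw [if_pos e]
          obtain ⟨rfl, rfl⟩ := e
          rw [hxi]
          simp [pat]
        · rw [if_neg e]
          exact Nat.zero_le _)
    have e4 : r + 0 + (r + 1) = 2 * r + 1 := by omega
    have e5 : 1 + 0 + 1 + 0 = 2 := by norm_num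
    have e6 : r + 0 + (r + 1) = 2 * r + 1 := by omega
    have e7 : 1 + 0 + 1 + 0 = 2 := by norm_num
    rw [e4, e5] at g1
    rw [e6, e7] at g2
    refine ⟨x, hx, y, g1, g2, hxi, ?_⟩
    rw [g3, hxi]
    rfl

end Pool.Agent.SOL
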